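import Pool.Agent.Helper60.T3.GoalsI
import Pool.Agent.Helper57.UQ.ELIM

/-!
# Project T3 (MP_a41896_nt), packet SPC: specialisation of an irreducible polynomial to a plane
-/

set_option autoImplicit false

open MvPolynomial

namespace Pool.Agent.Helper15.T3.SPC

theorem oel {K S : Type} [Field K] (r : MvPolynomial S K) :
    optionEquivLeft K S (rename some r) = Polynomial.C r := by
  induction r using MvPolynomial.induction_on with
  | C c => simp
  | add p q hp hq => rw [map_add, map_add, hp, hq, map_add]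
  | mul_X p i hp => rw [map_mul, map_mul, hp, rename_X, optionEquivLeft_X_some, map_mul]

/-- A point of `h = 0` with all coordinates but one independent is generic. -/
theorem gen {K L : Type} [Field K] [Field L] [Algebra K L] {σ : Type}
    {h : MvPolynomial σ K} {i' : σ} {X : σ → L} (hirr : Irreducible h) (hdeg : h.degreeOf i' ≠ 0)
    (h0 : aeval X h = 0) (hind : AlgebraicIndependent K (fun i : {i : σ // i ≠ i'} => X i))
    {p : MvPolynomial σ K} (hp : aeval X p = 0) : h ∣ p := by
  classical
  by_contra hnd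
  let ε : Option {b // b ≠ i'} ≃ σ := Equiv.optionSubtypeNe i'
  let e : MvPolynomial σ K ≃ₐ[K] Polynomial (MvPolynomial {b // b ≠ i'} K) :=
    (renameEquiv K ε.symm).trans (optionEquivLeft K {b // b ≠ i'})
  have hdegE : ∀ p : MvPolynomial σ K, (e p).natDegree = p.degreeOf i' := by
    intro p
    have h1 : e p = optionEquivLeft K {b // b ≠ i'} (rename ε.symm p) := rfl
    rw [h1, natDegree_optionEquivLeft]
    have h2 : (none : Option {b // b ≠ i'}) = ε.symm i' := by
      rw [Equiv.eq_symm_apply]; rfl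
    rw [h2]
    exact degreeOf_rename_of_injective ε.symm.injective i'
  have hirr' : Irreducible (e h) := (MulEquiv.irreducible_iff e).2 hirr
  have hnd' : ¬ e h ∣ e p := by
    rw [map_dvd_iff]
    exact hnd
  obtain ⟨r, a, b, hr, hab⟩ := Pool.Agent.Helper57.UQ.ELIM.res _ (e h) (e p) hirr'
    (by rw [hdegE]; exact Nat.one_le_iff_ne_zero.2 hdeg) hnd'
  have h1 : e.symm (Polynomial.C r) = e.symm a * h + e.symm b * p := by
    rw [hab, map_add, map_mul, map_mul, AlgEquiv.symm_apply_apply, AlgEquiv.symm_apply_apply]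
  have h2 : e.symm (Polynomial.C r) = rename (fun i : {b // b ≠ i'} => (i : σ)) r := by
    rw [AlgEquiv.symm_apply_eq]
    show Polynomial.C r = optionEquivLeft K {b // b ≠ i'} (rename ε.symm (rename _ r))
    rw [rename_rename]
    have h3 : (ε.symm ∘ fun i : {b // b ≠ i'} => (i : σ)) = some := by
      funext i
      show ε.symm i = some i
      rw [Equiv.symm_apply_eq]
      rfl
    rw [h3, oel]
  have h4 : aeval X (e.symm (Polynomial.C r)) = 0 := by
    rw [h1, map_add, map_mul, map_mul, h0, hp, mul_zero, mul_zero, add_zero]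
  rw [h2, aeval_rename] at h4
  exact hr (by
    have := (algebraicIndependent_iff_injective_aeval.1 hind) (a₁ := r) (a₂ := 0)
      (by rw [map_zero]; exact h4)
    exact this)

theorem not_dvd {K σ : Type} [Field K] [CharZero K] {P : MvPolynomial σ K} {i : σ}
    (h : 0 < P.degreeOf i) : ¬ P ∣ pderiv i P := by
  classical
  have hP : P ≠ 0 := by
    rintro rfl
    simp at h
  have hsup := degreeOf_eq_sup i P
  have hne : P.support.Nonempty := by
    rw [Finset.nonempty_iff_ne_empty, Ne, support_eq_empty]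
    exact hP
  obtain ⟨m, hm, hmi⟩ := Finset.exists_mem_eq_sup P.support hne (fun m => m i)
  rw [← hsup] at hmi
  have hmpos : 1 ≤ m i := by omega
  have hsub : m - Finsupp.single i 1 + Finsupp.single i 1 = m := by
    apply tsub_add_cancel_of_le
    rw [Finsupp.single_le_iff]
    exact hmpos
  have hD : pderiv i P ≠ 0 := by
    intro h0
    have h1 := coeff_pderiv (i := i) P (m - Finsupp.single i 1)
    rw [h0, hsub, coeff_zero] at h1
    have h2 : coeff m P ≠ 0 := mem_support_iff.1 hm
    have h3 : (((m - Finsupp.single i 1 : σ →₀ ℕ) i : K) + 1) ≠ 0 := by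
      exact Nat.cast_add_one_ne_zero _
    exact mul_ne_zero h2 h3 h1.symm
  have hlt : (pderiv i P).degreeOf i < P.degreeOf i := by
    rw [degreeOf_lt_iff h]
    intro m' hm'
    rw [mem_support_iff, coeff_pderiv] at hm'
    have h1 : coeff (m' + Finsupp.single i 1) P ≠ 0 := left_ne_zero_of_mul hm'
    have h2 := monomial_le_degreeOf i (mem_support_iff.2 h1)
    simp at h2
    omega
  rintro ⟨Q, hQ⟩
  have hQ0 : Q ≠ 0 := by
    rintro rfl
    rw [mul_zero] at hQ
    exact hD hQ
  rw [hQ, degreeOf_mul_eq hP hQ0] at hlt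
  omega

section spec

variable {K k : Type} [Field K] [Field k] [Algebra K k] {σ : Type} [DecidableEq σ]

/-- the substitution -/
noncomputable def sb (y : σ → k) (i0 i' : σ) (i : σ) : MvPolynomial (Fin 2) k :=
  if i = i0 then X 0 else if i = i' then X 1 else C (y i)

theorem ev {L : Type} [Field L] [Algebra k L] [Algebra K L] [IsScalarTower K k L] (y : σ → k)
    (i0 i' : σ) (x : σ → L) (hy : ∀ i, i ≠ i0 → i ≠ i' → algebraMap k L (y i) = x i)
    (p : MvPolynomial σ K) :
    aeval ![x i0, x i'] (aeval (sb y i0 i') p) = aeval x p := by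
  induction p using MvPolynomial.induction_on with
  | C a =>
    rw [← algebraMap_eq, AlgHom.commutes, AlgHom.commutes, MvPolynomial.algebraMap_apply,
      ← algebraMap_eq, AlgHom.commutes, ← IsScalarTower.algebraMap_apply]
  | add p q hp hq => rw [map_add, map_add, hp, hq, map_add]
  | mul_X p i hp =>
    rw [map_mul, map_mul, hp, map_mul, aeval_X, aeval_X, sb]
    congr 1
    split_ifs with h1 h2
    · rw [aeval_X, h1]
      rfl
    · rw [aeval_X, h2]
      rfl
    · rw [← algebraMap_eq, AlgHom.commutes, hy i h1 h2]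

theorem dv (y : σ → k) (i0 i' : σ) (j : Fin 2) (ij : σ)
    (hj : ∀ i, pderiv j (sb y i0 i' i) = if i = ij then 1 else 0) (p : MvPolynomial σ K) :
    pderiv j (aeval (sb y i0 i') p) = aeval (sb y i0 i') (pderiv ij p) := by
  induction p using MvPolynomial.induction_on with
  | C a =>
    rw [pderiv_C, map_zero, ← algebraMap_eq, AlgHom.commutes, MvPolynomial.algebraMap_apply,
      pderiv_C]
  | add p q hp hq => rw [map_add, map_add, hp, hq, map_add, map_add]
  | mul_X p i hp =>
    rw [map_mul, aeval_X, pderiv_mul, pderiv_mul, map_add, map_mul, map_mul, hp, hj, aeval_X,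
      pderiv_X]
    congr 2
    by_cases h : i = ij
    · rw [if_pos h, h, Pi.single_eq_same, map_one]
    · rw [if_neg h, Pi.single_eq_of_ne h, map_zero]

theorem dg [Fintype σ] (y : σ → k) (i0 i' : σ) (j : Fin 2) (ij : σ)
    (hj : ∀ i, degreeOf j (sb y i0 i' i) ≤ if i = ij then 1 else 0) (p : MvPolynomial σ K) :
    degreeOf j (aeval (sb y i0 i') p) ≤ degreeOf ij p := by
  rw [aeval_def, eval₂_eq']
  refine (degreeOf_sum_le _ _ _).trans (Finset.sup_le fun m hm => ?_)
  refine (degreeOf_mul_le _ _ _).trans ?_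
  rw [MvPolynomial.algebraMap_apply, degreeOf_C, zero_add]
  refine (degreeOf_prod_le _ _ _).trans ?_
  calc ∑ i, degreeOf j (sb y i0 i' i ^ m i) ≤ ∑ i, if i = ij then m i else 0 := by
        refine Finset.sum_le_sum fun i _ => (degreeOf_pow_le _ _ _).trans ?_
        have := hj i
        split_ifs at this ⊢ with h
        · calc m i * degreeOf j (sb y i0 i' i) ≤ m i * 1 := Nat.mul_le_mul_left _ this
            _ = m i := mul_one _
        · rw [Nat.le_zero.1 this, mul_zero]
    _ = m ij := by rw [Finset.sum_ite_eq' Finset.univ ij, if_pos (Finset.mem_univ _)]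
    _ ≤ degreeOf ij p := monomial_le_degreeOf ij hm

end spec

theorem t : Pool.Agent.Helper60.T3.S_SPC := by
  classical
  intro K k L _ _ _ _ _ _ _ _ σ _ _ h i0 i' D0 x hne hirr hD hdeg h0 hind hx _
  choose! y hy using hx
  have hyy : ∀ i, i ≠ i0 → i ≠ i' → algebraMap k L (y i) = x i := hy
  set φ : MvPolynomial σ K →ₐ[K] MvPolynomial (Fin 2) k := aeval (sb y i0 i') with hφ
  have hev : ∀ p, aeval ![x i0, x i'] (φ p) = aeval x p := ev y i0 i' x hyy
  have hs0 : sb y i0 i' i0 = X 0 := by simp [sb]
  have hs1 : sb y i0 i' i' = X 1 := by simp [sb, hne.symm]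
  have hp0 : ∀ p, pderiv 0 (φ p) = φ (pderiv i0 p) := dv y i0 i' 0 i0 fun i => by
    rw [sb]
    split_ifs with h1 h2
    · exact pderiv_X_self 0
    · exact pderiv_X_of_ne (by decide)
    · exact pderiv_C
  have hp1 : ∀ p, pderiv 1 (φ p) = φ (pderiv i' p) := dv y i0 i' 1 i' fun i => by
    rw [sb]
    split_ifs with h1 h2 h3
    · exact absurd (h1.symm.trans h2) hne
    · exact pderiv_X_of_ne (by decide)
    · exact pderiv_X_self 1
    · exact pderiv_C
  have hd0 : ∀ p, degreeOf 0 (φ p) ≤ degreeOf i0 p := dg y i0 i' 0 i0 fun i => by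
    rw [sb]
    split_ifs with h1 h2
    · rw [degreeOf_X]; simp
    · rw [degreeOf_X]; simp
    · rw [degreeOf_C]
  have hd1 : ∀ p, degreeOf 1 (φ p) ≤ degreeOf i' p := dg y i0 i' 1 i' fun i => by
    rw [sb]
    split_ifs with h1 h2 h3
    · exact absurd (h1.symm.trans h2) hne
    · rw [degreeOf_X]; simp
    · rw [degreeOf_X]; simp
    · rw [degreeOf_C]
  -- the point is not singular in the direction `i'`
  have hns : aeval x (pderiv i' h) ≠ 0 := fun hc =>
    not_dvd (Nat.pos_of_ne_zero hdeg) (gen hirr hdeg h0 hind hc)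
  have hpt0 : aeval ![x i0, x i'] (φ h) = 0 := by rw [hev, h0]
  have hφ0 : φ h ≠ 0 := by
    intro hc
    apply hns
    rw [← hev, ← hp1, hc, map_zero, map_zero]
  -- an irreducible factor
  obtain ⟨g, hgirr, hgdvd, hg0⟩ : ∃ g : MvPolynomial (Fin 2) k, Irreducible g ∧ g ∣ φ h ∧
      aeval ![x i0, x i'] g = 0 := by
    have key : ∀ p : MvPolynomial (Fin 2) k, p ≠ 0 → aeval ![x i0, x i'] p = 0 →
        ∃ g : MvPolynomial (Fin 2) k, Irreducible g ∧ g ∣ p ∧ aeval ![x i0, x i'] g = 0 := by
      intro p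
      refine UniqueFactorizationMonoid.induction_on_prime p (fun h => absurd rfl h) ?_ ?_
      · intro u hu _ hz
        exact absurd hz (hu.map (aeval ![x i0, x i'])).ne_zero
      · intro a q ha hq ih _ hz
        rw [map_mul] at hz
        rcases mul_eq_zero.1 hz with h1 | h1
        · exact ⟨q, hq.irreducible, dvd_mul_right _ _, h1⟩
        · obtain ⟨g, hg1, hg2, hg3⟩ := ih ha h1
          exact ⟨g, hg1, hg2.mul_left _, hg3⟩
    exact key _ hφ0 hpt0
  obtain ⟨r, hr⟩ := hgdvd
  have hg00 : g ≠ 0 := hgirr.ne_zero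
  have hr0 : r ≠ 0 := by
    rintro rfl
    exact hφ0 (by rw [hr, mul_zero])
  set q : L := aeval ![x i0, x i'] r with hq
  have e0 : aeval x (pderiv i0 h) = q * aeval ![x i0, x i'] (pderiv 0 g) := by
    rw [← hev, ← hp0, hr, pderiv_mul, map_add, map_mul, map_mul, hg0, zero_mul, add_zero, mul_comm]
  have e1 : aeval x (pderiv i' h) = q * aeval ![x i0, x i'] (pderiv 1 g) := by
    rw [← hev, ← hp1, hr, pderiv_mul, map_add, map_mul, map_mul, hg0, zero_mul, add_zero, mul_comm]
  refine ⟨g, q, hgirr, ?_, ?_, hg0, ?_, e0, e1⟩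
  · intro j
    have h1 : degreeOf j (φ h) = degreeOf j g + degreeOf j r := by
      rw [hr, degreeOf_mul_eq hg00 hr0]
    have h2 : degreeOf j (φ h) ≤ D0 := by
      fin_cases j
      · exact (hd0 h).trans (hD i0)
      · exact (hd1 h).trans (hD i')
    omega
  · intro hc
    apply hns
    have h1 : pderiv 1 g = 0 := by
      apply pderiv_eq_zero_of_notMem_vars
      rw [vars_def, Multiset.mem_toFinset, ← Multiset.count_eq_zero, ← degreeOf_def]
      exact hc
    rw [e1, h1, map_zero, mul_zero]
  · intro hc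
    apply hns
    rw [e1, hc, zero_mul]

end Pool.Agent.Helper15.T3.SPC
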